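import Pool.Agent.H80.L.R_seed8.H770R2.Maz3

/-!
# Asymptotically additive gauges for a Hausdorff vector topology with sequentially compact ball
-/

set_option autoImplicit false
set_option linter.unusedSectionVars false

namespace Pool.H770R2.Maz

open Filter Topology

variable {E : Type*} [NormedAddCommGroup E] [NormedSpace ℝ E]
  {V : Type*} [AddCommGroup V] [Module ℝ V] [TopologicalSpace V] [IsTopologicalAddGroup V]
  [ContinuousSMul ℝ V] [T2Space V] {j : E →ₗ[ℝ] V}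

/-- the unit ball is sequentially compact for the topology induced by `j` -/
def BallCpt (j : E →ₗ[ℝ] V) : Prop :=
  ∀ u : ℕ → E, (∀ n, ‖u n‖ ≤ 1) → ∃ a : E, ‖a‖ ≤ 1 ∧ ∃ φ : ℕ → ℕ, StrictMono φ ∧
    Tendsto (fun k => j (u (φ k))) atTop (𝓝 (j a))

/-- asymptotic additivity along bounded null sequences -/
def AsympV (Ph : ℝ → ℝ) (j : E →ₗ[ℝ] V) : Prop :=
  ∀ w : ℕ → E, (∃ C : ℝ, ∀ n, ‖w n‖ ≤ C) → Tendsto (fun n => j (w n)) atTop (𝓝 0) →
    ∀ u : E, Tendsto (fun n => Ph ‖u + w n‖ - Ph ‖w n‖) atTop (𝓝 (Ph ‖u‖))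

theorem ballCpt_scaled (hK : BallCpt j) {C : ℝ} (hC : 0 ≤ C) {u : ℕ → E}
    (hu : ∀ n, ‖u n‖ ≤ C) : ∃ a : E, ‖a‖ ≤ C ∧ ∃ φ : ℕ → ℕ, StrictMono φ ∧
    Tendsto (fun k => j (u (φ k))) atTop (𝓝 (j a)) := by
  rcases hC.eq_or_lt with hC0 | hC0
  · have h0 : ∀ n, u n = 0 := by
      intro n
      have := hu n
      rw [← hC0] at this
      exact norm_le_zero_iff.1 this
    refine ⟨0, by simp [← hC0], id, strictMono_id, ?_⟩
    simp only [h0, map_zero]
    exact tendsto_const_nhds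
  · obtain ⟨a, ha, φ, hφ, hlim⟩ := hK (fun n => C⁻¹ • u n) (fun n => by
      rw [norm_smul, norm_inv, Real.norm_of_nonneg hC, inv_mul_le_iff₀ hC0, mul_one]
      exact hu n)
    refine ⟨C • a, ?_, φ, hφ, ?_⟩
    · rw [norm_smul, Real.norm_of_nonneg hC]
      nlinarith
    · have h1 := hlim.const_smul C
      simpa only [map_smul, smul_smul, mul_inv_cancel₀ hC0.ne', one_smul] using h1

theorem norm_le_of_tau (hj : Function.Injective j) (hK : BallCpt j) {C : ℝ} (hC : 0 ≤ C)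
    {u : ℕ → E} (hu : ∀ n, ‖u n‖ ≤ C) {a : E} (ha : Tendsto (fun k => j (u k)) atTop (𝓝 (j a))) :
    ‖a‖ ≤ C := by
  obtain ⟨b, hb, φ, hφ, hlim⟩ := ballCpt_scaled hK hC hu
  have h1 := ha.comp hφ.tendsto_atTop
  have h2 : j a = j b := tendsto_nhds_unique h1 hlim
  rw [hj h2]; exact hb

/-- diagonal extraction -/
theorem diag_extract (hK : BallCpt j) {F : ℕ → ℕ → E} {C : ℕ → ℝ} (hC : ∀ i, 0 ≤ C i)
    (hF : ∀ i n, ‖F i n‖ ≤ C i) :
    ∃ ψ : ℕ → ℕ, StrictMono ψ ∧ ∀ i, ∃ a : E, Tendsto (fun k => j (F i (ψ k))) atTop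
      (𝓝 (j a)) := by
  have hstep : ∀ (i : ℕ) (φ : ℕ → ℕ), ∃ θ : ℕ → ℕ, StrictMono θ ∧
      ∃ a : E, Tendsto (fun k => j (F i (φ (θ k)))) atTop (𝓝 (j a)) := by
    intro i φ
    obtain ⟨a, -, θ, hθ, hlim⟩ := ballCpt_scaled hK (hC i) (u := fun n => F i (φ n))
      (fun n => hF i _)
    exact ⟨θ, hθ, a, hlim⟩
  choose θ hθ1 hθ2 using hstep
  let φ : ℕ → ℕ → ℕ := fun n => Nat.rec id (fun k f => f ∘ θ k f) n
  have hφ : ∀ n, φ (n + 1) = φ n ∘ θ n (φ n) := fun n => rfl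
  have hmono : ∀ n, StrictMono (φ n) := by
    intro n
    induction n with
    | zero => exact strictMono_id
    | succ n ih => rw [hφ]; exact ih.comp (hθ1 _ _)
  have hfac : ∀ i n, i ≤ n → ∃ Θ : ℕ → ℕ, StrictMono Θ ∧ φ n = φ i ∘ Θ := by
    intro i n hin
    induction n, hin using Nat.le_induction with
    | base => exact ⟨id, strictMono_id, rfl⟩
    | succ n hn ih =>
      obtain ⟨Θ, h1, h2⟩ := ih
      refine ⟨Θ ∘ θ n (φ n), h1.comp (hθ1 _ _), ?_⟩
      rw [hφ]
      conv_lhs => rw [h2]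
      rw [Function.comp_assoc, ← h2]
  refine ⟨fun n => φ n n, ?_, fun i => ?_⟩
  · refine strictMono_nat_of_lt_succ fun n => ?_
    rw [hφ]
    apply hmono n
    exact (Nat.lt_succ_self n).trans_le ((hθ1 _ _).id_le (n + 1))
  · obtain ⟨a, ha⟩ := hθ2 i (φ i)
    refine ⟨a, ?_⟩
    have h1 : ∀ n, ∃ m, n ≤ m ∧ (i + 1 ≤ n → φ n n = φ (i + 1) m) := by
      intro n
      by_cases hn : i + 1 ≤ n
      · obtain ⟨Θ, h1, h2⟩ := hfac (i + 1) n hn
        exact ⟨Θ n, h1.id_le n, fun _ => by rw [h2]; rfl⟩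
      · exact ⟨n, le_rfl, fun h => absurd h hn⟩
    choose m hm1 hm2 using h1
    have hm3 : Tendsto m atTop atTop := tendsto_atTop_mono hm1 tendsto_id
    have h2 := ha.comp hm3
    refine h2.congr' ?_
    filter_upwards [eventually_ge_atTop (i + 1)] with n hn
    change j (F i (φ i (θ i (φ i) (m n)))) = j (F i (φ n n))
    rw [hm2 n hn, hφ]; rfl

/-- extraction of an operator limit from a sequence of isometries -/
theorem exists_oplim [TopologicalSpace.SeparableSpace E] (hj : Function.Injective j)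
    (hK : BallCpt j) (τ : ℕ → E →L[ℝ] E) (hτ : ∀ n u, ‖τ n u‖ = ‖u‖) :
    ∃ ψ : ℕ → ℕ, StrictMono ψ ∧ ∃ T : E →L[ℝ] E, (∀ u, ‖T u‖ ≤ ‖u‖) ∧
      ∀ u, Tendsto (fun n => j (τ (ψ n) u)) atTop (𝓝 (j (T u))) := by
  let d : ℕ → E := TopologicalSpace.denseSeq E
  have hd : DenseRange d := TopologicalSpace.denseRange_denseSeq E
  obtain ⟨ψ, hψ, hlim⟩ := diag_extract hK (F := fun i n => τ n (d i)) (C := fun i => ‖d i‖)
    (fun i => norm_nonneg _) (fun i n => (hτ n _).le)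
  choose a ha using hlim
  -- convergence at every point
  have hall : ∀ u : E, ∃ b : E, Tendsto (fun n => j (τ (ψ n) u)) atTop (𝓝 (j b)) := by
    intro u
    obtain ⟨b, -, φ, hφ, hb⟩ := ballCpt_scaled hK (norm_nonneg u) (u := fun n => τ (ψ n) u)
      (fun n => (hτ _ _).le)
    refine ⟨b, ?_⟩
    apply tendsto_of_subseq_tendsto
    intro ns hns
    obtain ⟨b', -, φ', hφ', hb'⟩ := ballCpt_scaled hK (norm_nonneg u)
      (u := fun n => τ (ψ (ns n)) u) (fun n => (hτ _ _).le)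
    refine ⟨φ', ?_⟩
    have hbb : b' = b := by
      -- both are close to `a i`
      have h1 : ∀ i, ‖b - a i‖ ≤ ‖u - d i‖ := by
        intro i
        have h2 : Tendsto (fun k => j (τ (ψ (φ k)) (u - d i))) atTop (𝓝 (j (b - a i))) := by
          have h3 := hb.sub ((ha i).comp hφ.tendsto_atTop)
          rw [map_sub]
          refine h3.congr fun k => ?_
          simp only [Function.comp, map_sub]
        exact norm_le_of_tau hj hK (norm_nonneg _) (fun n => (hτ _ _).le) h2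
      have h1' : ∀ i, ‖b' - a i‖ ≤ ‖u - d i‖ := by
        intro i
        have h2 : Tendsto (fun k => j (τ (ψ (ns (φ' k))) (u - d i))) atTop
            (𝓝 (j (b' - a i))) := by
          have h3 := hb'.sub ((ha i).comp (hns.comp hφ'.tendsto_atTop))
          rw [map_sub]
          refine h3.congr fun k => ?_
          simp only [Function.comp, map_sub]
        exact norm_le_of_tau hj hK (norm_nonneg _) (fun n => (hτ _ _).le) h2
      by_contra hne
      have hpos : 0 < ‖b' - b‖ := norm_pos_iff.2 (sub_ne_zero.2 hne)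
      obtain ⟨i, hi⟩ := hd.exists_dist_lt u (half_pos hpos)
      rw [dist_eq_norm] at hi
      have h4 : b' - b = (b' - a i) - (b - a i) := by abel
      have h5 : ‖b' - b‖ ≤ ‖b' - a i‖ + ‖b - a i‖ := by
        rw [h4]; exact norm_sub_le _ _
      have h6 := h1 i
      have h7 := h1' i
      linarith
    rw [← hbb]
    exact hb'
  choose f hf using hall
  let L : E →ₗ[ℝ] E :=
    { toFun := f
      map_add' := fun x y => by
        apply hj
        have h1 := (hf x).add (hf y)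
        have h2 := hf (x + y)
        simp only [map_add] at h2 ⊢
        exact tendsto_nhds_unique h2 h1
      map_smul' := fun c x => by
        apply hj
        have h1 := (hf x).const_smul c
        have h2 := hf (c • x)
        simp only [map_smul, RingHom.id_apply] at h2 ⊢
        exact tendsto_nhds_unique h2 h1 }
  have hb : ∀ u, ‖L u‖ ≤ 1 * ‖u‖ := by
    intro u
    rw [one_mul]
    exact norm_le_of_tau hj hK (norm_nonneg u) (fun n => (hτ (ψ n) u).le) (hf u)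
  exact ⟨ψ, hψ, L.mkContinuous 1 hb, fun u => by simpa using hb u, hf⟩

section

variable {Ph : ℝ → ℝ} (hG : Gauge Ph)

theorem adj_of_oplim (hm : AsympV Ph j) (τ : ℕ → E ≃ₗᵢ[ℝ] E) {T S : E →L[ℝ] E}
    (hT : ∀ u, Tendsto (fun n => j (τ n u)) atTop (𝓝 (j (T u))))
    (hS : ∀ u, Tendsto (fun n => j ((τ n).symm u)) atTop (𝓝 (j (S u)))) :
    Adj Ph T S := by
  have key : ∀ (σ : ℕ → E ≃ₗᵢ[ℝ] E) (R : E →L[ℝ] E),
      (∀ u, Tendsto (fun n => j (σ n u)) atTop (𝓝 (j (R u)))) →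
      ∀ u h : E, Tendsto (fun n => Ph ‖σ n u + h‖) atTop
        (𝓝 (Ph ‖R u + h‖ + (Ph ‖u‖ - Ph ‖R u‖))) := by
    intro σ R hR u h
    have hbd : ∃ C, ∀ n, ‖σ n u - R u‖ ≤ C := ⟨‖u‖ + ‖R u‖, fun n =>
      (norm_sub_le _ _).trans (by rw [(σ n).norm_map])⟩
    have hnull : Tendsto (fun n => j (σ n u - R u)) atTop (𝓝 0) := by
      have := (hR u).sub (tendsto_const_nhds (x := j (R u)))
      simpa only [map_sub, sub_self] using this
    have h1 := hm _ hbd hnull (R u)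
    have h2 := hm _ hbd hnull (R u + h)
    have e1 : ∀ n, R u + (σ n u - R u) = σ n u := fun n => by abel
    have e2 : ∀ n, R u + h + (σ n u - R u) = σ n u + h := fun n => by abel
    simp only [e1, LinearIsometryEquiv.norm_map] at h1
    simp only [e2] at h2
    have h3 := h2.add ((tendsto_const_nhds (x := Ph ‖u‖)).sub h1)
    refine h3.congr fun n => ?_
    ring
  intro u h
  have h1 := key τ T hT u h
  have h2 := key (fun n => (τ n).symm) S hS h u
  have e : ∀ n, ‖(τ n).symm h + u‖ = ‖τ n u + h‖ := by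
    intro n
    rw [← (τ n).norm_map, map_add, (τ n).apply_symm_apply, add_comm]
  simp only [e] at h2
  have h3 := tendsto_nhds_unique h1 h2
  unfold B
  rw [add_comm u (S h)]
  linarith

/-- bounded null sequences with norms converging to a positive number -/
theorem exists_null (hK : BallCpt j) (hinf : ¬ FiniteDimensional ℝ E) :
    ∃ (w : ℕ → E) (C ρ : ℝ), (∀ n, ‖w n‖ ≤ C) ∧ Tendsto (fun n => j (w n)) atTop (𝓝 0) ∧
      0 < ρ ∧ Tendsto (fun n => ‖w n‖) atTop (𝓝 ρ) := by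
  obtain ⟨R, f, hR, hf1, hf2⟩ := exists_seq_norm_le_one_le_norm_sub (𝕜 := ℝ) (E := E) hinf
  obtain ⟨a, -, φ, hφ, hlim⟩ := ballCpt_scaled hK (by linarith : (0 : ℝ) ≤ R) hf1
  set w : ℕ → E := fun n => f (φ n) - a with hw
  have hwb : ∀ n, ‖w n‖ ≤ R + ‖a‖ := fun n =>
    (norm_sub_le _ _).trans (by have := hf1 (φ n); linarith)
  have hwn : Tendsto (fun n => j (w n)) atTop (𝓝 0) := by
    have := hlim.sub (tendsto_const_nhds (x := j a))
    simpa only [hw, map_sub, sub_self] using this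
  have hsep : ∀ m n, m ≠ n → 1 ≤ ‖w m - w n‖ := by
    intro m n hmn
    have h1 : w m - w n = f (φ m) - f (φ n) := by simp only [hw]; abel
    rw [h1]
    exact hf2 (fun h => hmn (hφ.injective h))
  have hlow : ∃ N, ∀ n, N ≤ n → 1 / 2 ≤ ‖w n‖ := by
    by_cases h : ∃ m, ‖w m‖ < 1 / 2
    · obtain ⟨m, hm⟩ := h
      refine ⟨m + 1, fun n hn => ?_⟩
      by_contra hc
      push Not at hc
      have h1 := hsep m n (by omega)
      have h2 := norm_sub_le (w m) (w n)
      linarith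
    · push Not at h
      exact ⟨0, fun n _ => h n⟩
  obtain ⟨N, hN⟩ := hlow
  have hcomp : IsCompact (Set.Icc (1 / 2 : ℝ) (R + ‖a‖)) := isCompact_Icc
  obtain ⟨ρ, hρ, θ, hθ, hlim2⟩ := hcomp.tendsto_subseq
    (x := fun n => ‖w (N + n)‖) (fun n => ⟨hN _ (Nat.le_add_right _ _), hwb _⟩)
  have hsub : Tendsto (fun n => N + θ n) atTop atTop :=
    tendsto_atTop_mono (fun n => Nat.le_add_left _ _) hθ.tendsto_atTop
  refine ⟨fun n => w (N + θ n), R + ‖a‖, ρ, fun n => hwb _, hwn.comp hsub, ?_, hlim2⟩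
  linarith [hρ.1]

include hG in
/-- **Main theorem.** -/
theorem parv_of_tau [CompleteSpace E] [TopologicalSpace.SeparableSpace E]
    (hinf : ¬ FiniteDimensional ℝ E) (hj : Function.Injective j)
    (hK : BallCpt j) (hm : AsympV Ph j)
    (htr : Trans E) (x : E) : Parv Ph x := by
  obtain ⟨w, C, ρ, hwC, hw0, hρ, hwρ⟩ := exists_null hK hinf
  have hnt : Nontrivial E := by
    by_contra h
    rw [not_nontrivial_iff_subsingleton] at h
    exact hinf inferInstance
  obtain ⟨e, he1⟩ := exists_norm_eq E (zero_le_one (α := ℝ))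
  have hP0 : 0 < Ph (1 / 2) := ph_pos hG (by norm_num)
  have hP1 : Ph (1 / 2) < Ph 1 :=
    hG.2.1 (Set.mem_Ici.2 (by norm_num)) (Set.mem_Ici.2 (by norm_num)) (by norm_num)
  obtain ⟨s, hs, hs2⟩ : ∃ s ∈ Set.Icc (0 : ℝ) 1, Ph s = Ph 1 - Ph (1 / 2) := by
    have := intermediate_value_Icc (zero_le_one (α := ℝ)) hG.1.continuousOn
    apply this
    rw [hG.2.2]
    exact ⟨by linarith, by linarith⟩
  let v : ℕ → E := fun n => (1 / 2 : ℝ) • e + (s / ρ) • w n
  have hsρ : 0 ≤ s / ρ := div_nonneg hs.1 hρ.le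
  have hnull : Tendsto (fun n => j ((s / ρ) • w n)) atTop (𝓝 0) := by
    have := hw0.const_smul (s / ρ)
    simpa only [map_smul, smul_zero] using this
  have hv1 : Tendsto (fun n => Ph ‖v n‖) atTop (𝓝 (Ph 1)) := by
    have hbd : ∃ C', ∀ n, ‖(s / ρ) • w n‖ ≤ C' := ⟨s / ρ * C, fun n => by
      rw [norm_smul, Real.norm_of_nonneg hsρ]
      exact mul_le_mul_of_nonneg_left (hwC n) hsρ⟩
    have h1 := hm (fun n => (s / ρ) • w n) hbd hnull ((1 / 2 : ℝ) • e)
    have e1 : Tendsto (fun n => Ph ‖(s / ρ) • w n‖) atTop (𝓝 (Ph s)) := by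
      refine (hG.1.tendsto s).comp ?_
      have h2 := hwρ.const_mul (s / ρ)
      rw [div_mul_cancel₀ _ hρ.ne'] at h2
      refine h2.congr fun n => ?_
      rw [norm_smul, Real.norm_of_nonneg hsρ]
    have e2 : ‖(1 / 2 : ℝ) • e‖ = 1 / 2 := by
      rw [norm_smul, he1, mul_one, Real.norm_of_nonneg (by norm_num)]
    rw [e2] at h1
    have h2 := h1.add e1
    have e3 : Ph (1 / 2) + Ph s = Ph 1 := by rw [hs2]; ring
    rw [e3] at h2
    refine h2.congr fun n => ?_
    simp only [v]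
    ring
  have hv2 : Tendsto (fun n => ‖v n‖) atTop (𝓝 1) := by
    rw [Metric.tendsto_atTop]
    intro ε hε
    set δ := min ε (1 / 2) with hδ
    have hδ0 : 0 < δ := lt_min hε (by norm_num)
    have hδ1 : δ ≤ 1 / 2 := min_le_right _ _
    have h1 : Ph (1 - δ) < Ph 1 :=
      hG.2.1 (Set.mem_Ici.2 (by linarith)) (Set.mem_Ici.2 (by norm_num)) (by linarith)
    have h2 : Ph 1 < Ph (1 + δ) :=
      hG.2.1 (Set.mem_Ici.2 (by norm_num)) (Set.mem_Ici.2 (by linarith)) (by linarith)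
    have h3 := (hv1.eventually_const_lt h1).and (hv1.eventually_lt_const h2)
    obtain ⟨N, hN⟩ := eventually_atTop.1 h3
    refine ⟨N, fun n hn => ?_⟩
    obtain ⟨h4, h5⟩ := hN n hn
    have h6 : 1 - δ < ‖v n‖ :=
      (hG.2.1.lt_iff_lt (Set.mem_Ici.2 (by linarith)) (Set.mem_Ici.2 (norm_nonneg _))).1 h4
    have h7 : ‖v n‖ < 1 + δ :=
      (hG.2.1.lt_iff_lt (Set.mem_Ici.2 (norm_nonneg _)) (Set.mem_Ici.2 (by linarith))).1 h5
    rw [Real.dist_eq, abs_lt]
    have := min_le_left ε (1 / 2)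
    constructor <;> linarith
  -- isometries
  have hex : ∀ n, ∃ τ : E ≃ₗᵢ[ℝ] E, v n ≠ 0 → τ e = ‖v n‖⁻¹ • v n := by
    intro n
    by_cases hv : v n = 0
    · exact ⟨LinearIsometryEquiv.refl ℝ E, fun h => absurd hv h⟩
    · have h1 : ‖‖v n‖⁻¹ • v n‖ = 1 := by
        rw [norm_smul, norm_inv, norm_norm, inv_mul_cancel₀ (norm_ne_zero_iff.2 hv)]
      obtain ⟨τ, hτ⟩ := htr e _ he1 h1
      exact ⟨τ, fun _ => hτ⟩
  choose τ hτ using hex
  obtain ⟨ψ, hψ, T, hT1, hT2⟩ := exists_oplim hj hK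
    (fun n => ((τ n : E ≃L[ℝ] E) : E →L[ℝ] E)) (fun n u => (τ n).norm_map u)
  obtain ⟨ψ', hψ', S, hS1, hS2⟩ := exists_oplim hj hK
    (fun n => (((τ (ψ n)).symm : E ≃L[ℝ] E) : E →L[ℝ] E))
    (fun n u => (τ (ψ n)).symm.norm_map u)
  have hT3 : ∀ u, Tendsto (fun n => j (τ (ψ (ψ' n)) u)) atTop (𝓝 (j (T u))) :=
    fun u => (hT2 u).comp hψ'.tendsto_atTop
  have hA : Adj Ph T S := adj_of_oplim hm (fun n => τ (ψ (ψ' n))) hT3 hS2
  have hTe : T e = (1 / 2 : ℝ) • e := by
    apply hj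
    have h1 := hT2 e
    have h2 : Tendsto (fun n => j (τ (ψ n) e)) atTop (𝓝 (j ((1 / 2 : ℝ) • e))) := by
      have h3 : Tendsto (fun n => ‖v n‖⁻¹ • j (v n)) atTop
          (𝓝 ((1 : ℝ)⁻¹ • j ((1 / 2 : ℝ) • e))) := by
        refine (hv2.inv₀ one_ne_zero).smul ?_
        have := (tendsto_const_nhds (x := j ((1 / 2 : ℝ) • e))).add hnull
        rw [add_zero] at this
        refine this.congr fun n => ?_
        simp only [v, map_add]
      rw [inv_one, one_smul] at h3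
      have h4 : Tendsto (fun n => j (τ n e)) atTop (𝓝 (j ((1 / 2 : ℝ) • e))) := by
        refine h3.congr' ?_
        have h5 : ∀ᶠ n in atTop, v n ≠ 0 := by
          have := hv2.eventually_const_lt (show (1 / 2 : ℝ) < 1 by norm_num)
          filter_upwards [this] with n hn h0
          rw [h0, norm_zero] at hn
          linarith
        filter_upwards [h5] with n hn
        rw [hτ n hn, map_smul]
      exact h4.comp hψ.tendsto_atTop
    exact tendsto_nhds_unique h1 h2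
  have he0 : e ≠ 0 := by
    intro h; rw [h, norm_zero] at he1; exact zero_ne_one he1
  refine parv_of_adj hG htr hA hT1 hS1 ⟨e, ?_⟩ ⟨e, ?_⟩ x
  · rw [hTe]
    exact smul_ne_zero (by norm_num) he0
  · rw [hTe, norm_smul, he1, Real.norm_of_nonneg (by norm_num)]
    norm_num

end

end Pool.H770R2.Maz
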